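import Pool.Agent.Q28.GM.Defs

/-!
# The smallest filtration of a single variety, and gluing
-/

open CategoryTheory AlgebraicGeometry

universe u v w

namespace Pool.Agent.Q28.GM

open Pool.Agent.H914 Pool.Agent.H914.VarClass Pool.Agent.H914.VarClass.Obj Pool.Agent.W492.BB
  Pool.Agent.W550.Corr Pool.Agent.TH133 Pool.Agent.Q28.GL

set_option linter.unusedSectionVars false

variable {k : Type u} [Field k] {𝒱 : VarClass k}

variable {C : TheoryData.{u, v, 0} 𝒱 ℚ} {K : Type w} [Field K] {H : WeilTheoryData.{u, v, w} C K}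
  [hC : IsChowProj C] [hH : IsWeilProj H] {X Y Z W Z₁ Z₂ : 𝒱.Obj}

include hC hH

lemma adm_comp_left {Γ : C.A (X.prod Y)} (Δ : C.A (Y.prod Z)) {m : ℤ} (h : Admissible H Γ m) :
    Admissible H (C.comp Γ Δ) m := by
  rcases h with h | ⟨hK, h⟩
  · exact Or.inl fun l => kills_comp_left Δ (h l)
  · exact Or.inr ⟨hK, kills_comp_left Δ h⟩

lemma adm_comp_right {i j m : ℤ} {Γ : C.A (X.prod Y)} (hΓ : C.Deg (X.dim + i - j) Γ)
    {Δ : C.A (Y.prod Z)} (h : Admissible H Δ (m + 2 * (i - j))) :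
    Admissible H (C.comp Γ Δ) m := by
  rcases h with h | ⟨hK, h⟩
  · exact Or.inl fun l => kills_comp_right hΓ (h _)
  · exact Or.inr ⟨hK, kills_comp_right hΓ h⟩

lemma OwnChain.one_le {ν j : ℕ} {z : C.A Z} (h : OwnChain H Z ν j z) : 1 ≤ ν := by
  induction h with
  | base => exact le_rfl
  | step _ _ _ _ _ _ _ _ ih => omega

lemma ownChain_one {j : ℕ} {z : C.A Z} : OwnChain H Z 1 j z ↔ C.Deg j z ∧ H.cl z = 0 := by
  constructor
  · intro h
    cases h with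
    | base _ _ hz h0 => exact ⟨hz, h0⟩
    | step _ _ _ _ _ h _ _ => exact absurd h.one_le (by omega)
  · exact fun h => OwnChain.base j z h.1 h.2

lemma OwnChain.stable {ν j i : ℕ} {z : C.A Z} (h : OwnChain H Z ν j z) {Γ : C.A (Z.prod Z)}
    (hΓ : C.Deg (Z.dim + i - j) Γ) : OwnChain H Z ν i (C.act Γ z) := by
  cases h with
  | base _ _ hz h0 =>
    exact OwnChain.base i _ (act_deg hΓ hz) (by rw [cl_act, h0, GL.actH_zero])
  | step ν' j' _ z' Γ' h' hΓ' hk =>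
    rw [← C.act_comp]
    exact OwnChain.step ν' j' i z' _ h' (comp_deg hΓ' hΓ) (adm_comp_left Γ hk)

/-- The smallest filtration on the Chow groups of `Z`. -/
noncomputable def cM (H : WeilTheoryData.{u, v, w} C K) [IsWeilProj H] (Z : 𝒱.Obj) (j : ℕ) :
    ℕ → Submodule ℚ (C.A Z)
  | 0 => C.gr Z j
  | ν + 1 => Submodule.span ℚ {z | OwnChain H Z (ν + 1) j z}

lemma mem_cM_one {j : ℕ} {z : C.A Z} : z ∈ cM H Z j 1 ↔ C.Deg j z ∧ H.cl z = 0 := by
  constructor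
  · intro h
    change z ∈ Submodule.span ℚ _ at h
    induction h using Submodule.span_induction with
    | mem x hx => exact ownChain_one.1 hx
    | zero => exact ⟨Submodule.zero_mem _, map_zero _⟩
    | add x y _ _ hx hy => exact ⟨Submodule.add_mem _ hx.1 hy.1, by
        rw [map_add, hx.2, hy.2, add_zero]⟩
    | smul q x _ hx => exact ⟨Submodule.smul_mem _ q hx.1, cl_smul_zero hx.2 q⟩
  · exact fun h => Submodule.subset_span (ownChain_one.2 h)

lemma isOwn_cM (Z : 𝒱.Obj) : IsOwn H Z (cM H Z) where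
  anti := by
    intro j ν
    match ν with
    | 0 => exact fun z hz => (mem_cM_one.1 hz).1
    | ν + 1 =>
      refine Submodule.span_le.2 fun z hz => ?_
      have hz' : OwnChain H Z (ν + 1 + 1) j z := hz
      cases hz' with
      | step _ j' _ z' Γ h hΓ hk => exact Submodule.subset_span (h.stable hΓ)
  zero := fun j z => Iff.rfl
  one := fun j z => mem_cM_one
  stable := by
    intro j i ν Γ hΓ z hz
    match ν with
    | 0 => exact act_deg hΓ hz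
    | ν + 1 =>
      have h : cM H Z j (ν + 1) ≤ (cM H Z i (ν + 1)).comap (C.actL Γ) :=
        Submodule.span_le.2 fun z hz => Submodule.subset_span (OwnChain.stable hz hΓ)
      exact h hz
  shift := by
    intro j i ν Γ hΓ hk z hz
    match ν with
    | 0 =>
      rw [mem_cM_one]
      refine ⟨act_deg hΓ hz, ?_⟩
      rw [cl_act]
      have h1 := H.cl_mem (C := C) (X := Z) hz
      rcases hk with hk | ⟨-, hk⟩
      · exact hk _ _ h1
      · exact hk _ (by simpa using h1)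
    | ν + 1 =>
      have h : cM H Z j (ν + 1) ≤ (cM H Z i (ν + 1 + 1)).comap (C.actL Γ) :=
        Submodule.span_le.2 fun z hz => Submodule.subset_span (OwnChain.step _ j i z Γ hz hΓ hk)
      exact h hz

lemma cM_le {G : ℕ → ℕ → Submodule ℚ (C.A Z)} (h : IsOwn H Z G) (j ν : ℕ) :
    cM H Z j ν ≤ G j ν := by
  match ν with
  | 0 => exact fun z hz => (h.zero j z).2 hz
  | ν + 1 =>
    refine Submodule.span_le.2 fun z hz => ?_
    have key : ∀ (μ i : ℕ) (y : C.A Z), OwnChain H Z μ i y → y ∈ G i μ := by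
      intro μ i y hy
      induction hy with
      | base i y hy h0 => exact (h.one i y).2 ⟨hy, h0⟩
      | step μ i l y Γ _ hΓ hk ih => exact h.shift i l μ Γ hΓ hk y ih
    exact key _ _ _ hz

/-- The filtration induced on a variety dominated by `Z`. -/
lemma ret_isOwn {c : ℕ} {f : C.A (X.prod Z)} {g : C.A (Z.prod X)} (h : Ret C c X Z f g)
    {G : ℕ → ℕ → Submodule ℚ (C.A Z)} (hG : IsOwn H Z G) :
    IsOwn H X (fun j ν => (G (j + c) ν).comap (C.actL f)) where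
  anti j ν := fun z hz => hG.anti _ _ hz
  zero j z := by
    change C.act f z ∈ G (j + c) 0 ↔ _
    rw [hG.zero]
    refine ⟨fun h1 => ?_, fun h1 => act_deg (h.deg_f j) h1⟩
    have := act_deg (h.deg_g j) h1
    rwa [h.eq] at this
  one j z := by
    change C.act f z ∈ G (j + c) 1 ↔ _
    rw [hG.one]
    constructor
    · rintro ⟨h1, h2⟩
      have := act_deg (h.deg_g j) h1
      rw [h.eq] at this
      exact ⟨this, h.cl_eq_zero h2⟩
    · rintro ⟨h1, h2⟩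
      exact ⟨act_deg (h.deg_f j) h1, by rw [cl_act, h2, GL.actH_zero]⟩
  stable j i ν Γ hΓ z hz := by
    have hz' : C.act f z ∈ G (j + c) ν := hz
    change C.act f (C.act Γ z) ∈ G (i + c) ν
    have e : C.act f (C.act Γ z) = C.act (C.comp (C.comp g Γ) f) (C.act f z) := by
      rw [C.act_comp, C.act_comp, h.eq]
    rw [e]
    exact hG.stable (j + c) (i + c) ν _ (comp_deg (comp_deg (h.deg_g j) hΓ) (h.deg_f i)) _ hz'
  shift j i ν Γ hΓ hk z hz := by
    have hz' : C.act f z ∈ G (j + c) ν := hz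
    change C.act f (C.act Γ z) ∈ G (i + c) (ν + 1)
    have e : C.act f (C.act Γ z) = C.act (C.comp (C.comp g Γ) f) (C.act f z) := by
      rw [C.act_comp, C.act_comp, h.eq]
    rw [e]
    refine hG.shift (j + c) (i + c) ν _ (comp_deg (comp_deg (h.deg_g j) hΓ) (h.deg_f i))
      (adm_comp_left _ (adm_comp_right (h.deg_g j) ?_)) _ hz'
    have e2 : 2 * ((j + c : ℕ) : ℤ) - (ν : ℤ) + 2 * ((j : ℤ) - ((j + c : ℕ) : ℤ)) =
        2 * (j : ℤ) - ν := by
      push_cast; ring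
    rw [e2]
    exact hk

lemma act_cM {c : ℕ} {f : C.A (X.prod Z)} {g : C.A (Z.prod X)} (h : Ret C c X Z f g)
    {j ν : ℕ} {x : C.A X} (hx : x ∈ cM H X j ν) : C.act f x ∈ cM H Z (j + c) ν :=
  cM_le (ret_isOwn h (isOwn_cM Z)) j ν hx

/-- Transfer of the smallest filtration. -/
lemma transfer {f₁ : C.A (X.prod Z₁)} {g₁ : C.A (Z₁.prod X)} (h₁ : Ret C 0 X Z₁ f₁ g₁)
    {a : C.A (Z₁.prod Z)} {b : C.A (Z.prod Z₁)} (h : Ret C 0 Z₁ Z a b) {j i ν : ℕ}
    {Θ : C.A (X.prod Z)} (hΘ : C.Deg (X.dim + i - j) Θ) {x : C.A X}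
    (hx : C.act f₁ x ∈ cM H Z₁ j ν) :
    C.act Θ x ∈ cM H Z i ν ∧ (Admissible H Θ (2 * j - ν) → C.act Θ x ∈ cM H Z i (ν + 1)) := by
  have h2 := act_cM h hx
  have e : C.act Θ x = C.act (C.comp (C.comp b g₁) Θ) (C.act a (C.act f₁ x)) := by
    rw [C.act_comp, C.act_comp, h.eq, h₁.eq]
  have hd1 : C.Deg (Z.dim + (j : ℤ) - j) (C.comp b g₁) :=
    comp_deg (i := (j : ℤ)) (h.deg_g j) (h₁.deg_g j)
  have hd : C.Deg (Z.dim + (i : ℤ) - j) (C.comp (C.comp b g₁) Θ) := comp_deg hd1 hΘ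
  refine ⟨?_, fun hk => ?_⟩
  · rw [e]
    exact (isOwn_cM Z).stable j i ν _ hd _ h2
  · rw [e]
    refine (isOwn_cM Z).shift j i ν _ hd (adm_comp_right hd1 ?_) _ h2
    rw [sub_self, mul_zero, add_zero]
    exact hk

/-- `x ∈ CH^j(X)` belongs to the `ν`-th step after embedding `X` in some variety. -/
def Mem (H : WeilTheoryData.{u, v, w} C K) [IsWeilProj H] (X : 𝒱.Obj) (j ν : ℕ)
    (x : C.A X) : Prop :=
  ∃ (Z : 𝒱.Obj) (f : C.A (X.prod Z)) (g : C.A (Z.prod X)), Ret C 0 X Z f g ∧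
    C.act f x ∈ cM H Z j ν

lemma mem_of_cM {j ν : ℕ} {x : C.A X} (hx : x ∈ cM H X j ν) : Mem H X j ν x :=
  ⟨X, _, _, Ret.refl X, by rwa [act_dg]⟩

lemma Mem.move {j ν i : ℕ} {x : C.A X} (hx : Mem H X j ν x)
    {Γ : C.A (X.prod Y)} (hΓ : C.Deg (X.dim + i - j) Γ) :
    Mem H Y i ν (C.act Γ x) ∧
      (Admissible H Γ (2 * j - ν) → Mem H Y i (ν + 1) (C.act Γ x)) := by
  obtain ⟨Z₁, f₁, g₁, h₁, hx⟩ := hx
  obtain ⟨a₁, b₁, hab₁⟩ := dominates_iff.1 (dominates_prod_left (C := C) Z₁ Y)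
  obtain ⟨a₂, b₂, hab₂⟩ := dominates_iff.1 (dominates_prod_right (C := C) Z₁ Y)
  have hdeg : C.Deg (X.dim + (i : ℤ) - j) (C.comp Γ a₂) :=
    comp_deg hΓ (by simpa using hab₂.deg_f i)
  have key := transfer h₁ hab₁ hdeg hx
  rw [C.act_comp] at key
  exact ⟨⟨_, _, _, hab₂, key.1⟩, fun hk => ⟨_, _, _, hab₂, key.2 (adm_comp_left _ hk)⟩⟩

lemma Mem.add {j ν : ℕ} {x y : C.A X} (hx : Mem H X j ν x) (hy : Mem H X j ν y) :
    Mem H X j ν (x + y) := by
  obtain ⟨Z₁, f₁, g₁, h₁, hx⟩ := hx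
  obtain ⟨Z₂, f₂, g₂, h₂, hy⟩ := hy
  obtain ⟨a₁, b₁, hab₁⟩ := dominates_iff.1 (dominates_prod_left (C := C) Z₁ Z₂)
  obtain ⟨a₂, b₂, hab₂⟩ := dominates_iff.1 (dominates_prod_right (C := C) Z₁ Z₂)
  have hret := h₁.comp hab₁
  have hdeg : C.Deg (X.dim + (j : ℤ) - j) (C.comp f₁ a₁) := by simpa using hret.deg_f j
  refine ⟨_, _, _, hret, ?_⟩
  rw [act_map_add]
  exact Submodule.add_mem _ (transfer h₁ hab₁ hdeg hx).1 (transfer h₂ hab₂ hdeg hy).1

/-- The glued filtration. -/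
noncomputable def gM (H : WeilTheoryData.{u, v, w} C K) [IsWeilProj H] (X : 𝒱.Obj) (j ν : ℕ) :
    Submodule ℚ (C.A X) where
  carrier := {x | Mem H X j ν x}
  add_mem' := fun hx hy => hx.add hy
  zero_mem' := mem_of_cM (Submodule.zero_mem _)
  smul_mem' := by
    rintro q x ⟨Z, f, g, h, hx⟩
    refine ⟨Z, f, g, h, ?_⟩
    rw [act_map_smul]
    exact Submodule.smul_mem _ q hx

lemma mem_gM {j ν : ℕ} {x : C.A X} : x ∈ gM H X j ν ↔ Mem H X j ν x := Iff.rfl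

lemma gM_zero {j : ℕ} {x : C.A X} : x ∈ gM H X j 0 ↔ C.Deg j x := by
  constructor
  · rintro ⟨Z, f, g, h, hx⟩
    exact ((ret_isOwn h (isOwn_cM Z)).zero j x).1 hx
  · exact fun hx => mem_of_cM (((isOwn_cM X).zero j x).2 hx)

lemma gM_one {j : ℕ} {x : C.A X} : x ∈ gM H X j 1 ↔ C.Deg j x ∧ H.cl x = 0 := by
  constructor
  · rintro ⟨Z, f, g, h, hx⟩
    exact ((ret_isOwn h (isOwn_cM Z)).one j x).1 hx
  · exact fun hx => mem_of_cM (((isOwn_cM X).one j x).2 hx)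

lemma gM_anti (j ν : ℕ) : gM H X j (ν + 1) ≤ gM H X j ν := by
  rintro x ⟨Z, f, g, h, hx⟩
  exact ⟨Z, f, g, h, (isOwn_cM Z).anti j ν hx⟩

lemma gM_anti_le {j ν μ : ℕ} (h : ν ≤ μ) : gM H X j μ ≤ gM H X j ν := by
  induction μ, h using Nat.le_induction with
  | base => exact le_rfl
  | succ μ _ ih => exact (gM_anti j μ).trans ih

lemma gM_stable {j i ν : ℕ} {Γ : C.A (X.prod Y)} (hΓ : C.Deg (X.dim + i - j) Γ) {x : C.A X}
    (hx : x ∈ gM H X j ν) : C.act Γ x ∈ gM H Y i ν := (Mem.move hx hΓ).1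

lemma gM_shift {j i ν : ℕ} {Γ : C.A (X.prod Y)} (hΓ : C.Deg (X.dim + i - j) Γ)
    (hk : Admissible H Γ (2 * j - ν)) {x : C.A X} (hx : x ∈ gM H X j ν) :
    C.act Γ x ∈ gM H Y i (ν + 1) := (Mem.move hx hΓ).2 hk

/-- The steps of the glued filtration are generated by the previous ones. -/
lemma gM_gen {j ν : ℕ} {x : C.A X} (hx : x ∈ gM H X j (ν + 1 + 1)) :
    x ∈ Submodule.span ℚ {y | ∃ (Z : 𝒱.Obj) (l : ℕ) (z : C.A Z) (Γ : C.A (Z.prod X)),
      z ∈ gM H Z l (ν + 1) ∧ C.Deg (Z.dim + j - l) Γ ∧ Admissible H Γ (2 * l - ((ν + 1 : ℕ) : ℤ)) ∧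
        y = C.act Γ z} := by
  obtain ⟨Z, f, g, h, hx⟩ := hx
  rw [← h.eq x]
  have h1 : cM H Z j (ν + 1 + 1) ≤ (Submodule.span ℚ {y | ∃ (Z : 𝒱.Obj) (l : ℕ) (z : C.A Z)
      (Γ : C.A (Z.prod X)), z ∈ gM H Z l (ν + 1) ∧ C.Deg (Z.dim + j - l) Γ ∧
        Admissible H Γ (2 * l - ((ν + 1 : ℕ) : ℤ)) ∧ y = C.act Γ z}).comap (C.actL g) := by
    refine Submodule.span_le.2 fun z hz => ?_
    have hz' : OwnChain H Z (ν + 1 + 1) j z := hz
    cases hz' with
    | step _ l _ z' Γ h' hΓ hk =>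
      refine Submodule.subset_span ⟨Z, l, z', C.comp Γ g, mem_of_cM ?_, ?_, adm_comp_left _ hk, ?_⟩
      · exact Submodule.subset_span h'
      · exact comp_deg hΓ (by simpa using h.deg_g j)
      · rw [C.act_comp]; rfl
  exact h1 hx

lemma gM_top {c d : ℕ} (hc : ∀ X : 𝒱.Obj, ∃ Z, Dominates C c X Z ∧ HasOwn H d Z)
    (X : 𝒱.Obj) (j : ℕ) : gM H X j (j + (c + d) + 1) = ⊥ := by
  rw [eq_bot_iff]
  rintro z ⟨Z, f, g, h, hz⟩
  obtain ⟨Z', hd, G, hG, htop⟩ := hc Z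
  obtain ⟨f', g', h'⟩ := dominates_iff.1 hd
  have h1 := act_cM h' hz
  have h2 := cM_le hG _ _ h1
  have h3 := htop (j + c)
  rw [← Nat.add_assoc] at h2
  rw [h3, Submodule.mem_bot] at h2
  rw [Submodule.mem_bot, ← h.eq z, ← h'.eq (C.act f z), h2, C.act_map_zero, C.act_map_zero]

end Pool.Agent.Q28.GM
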