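import Pool.Agent.Q28.GL.Main

/-!
# Multiplicative Bloch-Beilinson filtrations, one variety at a time: definitions
-/

open CategoryTheory AlgebraicGeometry

universe u v w

namespace Pool.Agent.Q28.GM

open Pool.Agent.H914 Pool.Agent.H914.VarClass Pool.Agent.H914.VarClass.Obj Pool.Agent.W492.BB
  Pool.Agent.W550.Corr Pool.Agent.TH133 Pool.Agent.Q28.GL

variable {k : Type u} [Field k] {𝒱 : VarClass k}
variable {C : TheoryData.{u, v, 0} 𝒱 ℚ} {K : Type w} [Field K] (H : WeilTheoryData.{u, v, w} C K)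

/-- A filtration `G j ν = G^ν CH^j(Z)` of the Chow groups of the single variety `Z`:
`G^0 = CH^j(Z)`, `G^1` consists of the homologically trivial classes, all self-correspondences of
`Z` (of any degrees) respect the filtration, and those which are admissible in degree `2j - ν` (they
act as zero on the whole cohomology of `Z` or, if the Künneth standard conjecture holds, at least on
`H^(2j - ν)(Z)`) map `G^ν CH^j` to `G^(ν + 1)`. No compatibility with intersection products is
required. -/
structure IsOwn (Z : 𝒱.Obj) (G : ℕ → ℕ → Submodule ℚ (C.A Z)) : Prop where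
  anti : ∀ j ν : ℕ, G j (ν + 1) ≤ G j ν
  zero : ∀ (j : ℕ) (z : C.A Z), z ∈ G j 0 ↔ C.Deg j z
  one : ∀ (j : ℕ) (z : C.A Z), z ∈ G j 1 ↔ C.Deg j z ∧ H.cl z = 0
  stable : ∀ (j i ν : ℕ) (Γ : C.A (Z.prod Z)), C.Deg (Z.dim + i - j) Γ →
    ∀ z ∈ G j ν, C.act Γ z ∈ G i ν
  shift : ∀ (j i ν : ℕ) (Γ : C.A (Z.prod Z)), C.Deg (Z.dim + i - j) Γ →
    Admissible H Γ (2 * j - ν) → ∀ z ∈ G j ν, C.act Γ z ∈ G i (ν + 1)

/-- The single variety `Z` has a filtration of the kind `IsOwn` with `G^(j + d + 1) CH^j(Z) = 0`. -/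
def HasOwn (d : ℕ) (Z : 𝒱.Obj) : Prop :=
  ∃ G : ℕ → ℕ → Submodule ℚ (C.A Z), IsOwn H Z G ∧ ∀ j : ℕ, G j (j + d + 1) = ⊥

/-- `OwnChain H Z ν j z`: the class `z ∈ CH^j(Z)` is obtained from a homologically trivial class by
applying successively `ν - 1` self-correspondences of `Z`, of any degrees, where the correspondence
which is applied to a class of `CH^i(Z)` obtained in `μ - 1` steps is admissible in degree
`2i - μ`. -/
inductive OwnChain (Z : 𝒱.Obj) : ℕ → ℕ → C.A Z → Prop
  | base (j : ℕ) (z : C.A Z) (hz : C.Deg j z) (h0 : H.cl z = 0) : OwnChain Z 1 j z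
  | step (ν j i : ℕ) (z : C.A Z) (Γ : C.A (Z.prod Z)) (h : OwnChain Z ν j z)
      (hΓ : C.Deg (Z.dim + i - j) Γ) (hk : Admissible H Γ (2 * j - ν)) :
      OwnChain Z (ν + 1) i (C.act Γ z)

/-- All the chains of length `j` which end in `CH^j(Z)` are zero. -/
def OwnChainsVanish (Z : 𝒱.Obj) : Prop :=
  ∀ (j : ℕ) (z : C.A Z), OwnChain H Z (j + 1) j z → z = 0

/-- A system of filtrations on all varieties with all the properties of a Bloch-Beilinson filtration
(bounded by `F^(j + d + 1) CH^j = 0`): `F^0` and `F^1` are as they should be, the filtrations are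
multiplicative and compatible with pull-backs and push-forwards, motivic, and moreover all
correspondences between all varieties respect them and the admissible ones raise them. For `d = 0`
it is a Bloch-Beilinson filtration. -/
structure IsBBUpTo (d : ℕ) (F : Filtration C) : Prop where
  zero : ∀ (X : 𝒱.Obj) (i : ℕ) (x : C.A X), F.Mem i 0 x ↔ C.Deg i x
  one : ∀ (X : 𝒱.Obj) (i : ℕ) (x : C.A X), F.Mem i 1 x ↔ C.Deg i x ∧ H.cl x = 0
  top : ∀ (X : 𝒱.Obj) (i : ℕ) (x : C.A X), F.Mem i (i + d + 1) x → x = 0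
  multiplicative : IsMultiplicative F
  motivic : IsMotivic H F
  strong : IsStable H F

end Pool.Agent.Q28.GM
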