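import Pool.Agent.Q28.GM.Mult

/-!
# Bloch-Beilinson filtrations one variety at a time: the theorem
-/

open CategoryTheory AlgebraicGeometry

universe u v w

namespace Pool.Agent.Q28.GM

open Pool.Agent.H914 Pool.Agent.H914.VarClass Pool.Agent.H914.VarClass.Obj Pool.Agent.W492.BB
  Pool.Agent.W550.Corr Pool.Agent.TH133 Pool.Agent.Q28.GL

set_option linter.unusedSectionVars false
set_option linter.unusedVariables false

variable {k : Type u} [Field k] {𝒱 : VarClass k}

variable {C : TheoryData.{u, v, 0} 𝒱 ℚ} {K : Type w} [Field K] {H : WeilTheoryData.{u, v, w} C K}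
  [hC : IsChowProj C] [hH : IsWeilProj H] {X Y Z W Z₁ Z₂ : 𝒱.Obj}

include hC hH

/-- The glued filtration on all varieties. -/
noncomputable def gFil (H : WeilTheoryData.{u, v, w} C K) [IsWeilProj H] : Filtration C where
  F := gM H
  le_gr X i n := fun _ hx => gM_zero.1 (gM_anti_le (Nat.zero_le n) hx)
  anti X i n := gM_anti i n

lemma gFil_mult : IsMultiplicative (gFil H (C := C)) where
  mul := by
    intro X i j m n x y hx hy
    have h1 := ext_mem_gM m n X X i j x y hx hy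
    have h2 := real_move (Realised.pull (H := H) (Obj.lift (𝟙 X) (𝟙 X))) (i := i + j)
      (by ring) h1
    rw [TheoryData.ext, map_mul, ← C.pull_comp, ← C.pull_comp, lift_fst, lift_snd, C.pull_id,
      C.pull_id] at h2
    exact h2
  pull := by
    intro X Y f i n y hy
    exact real_move (Realised.pull (H := H) f) (by ring) hy
  push := by
    intro X Y f i j n x hij hx
    exact real_move (Realised.push (H := H) f) (by omega) hx

lemma gFil_stable : IsStable H (gFil H (C := C)) where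
  stable Z X j i n Γ hΓ z hz := gM_stable hΓ hz
  shift Z X j i n Γ hΓ hk z hz := gM_shift hΓ hk hz

lemma gFil_motivic : IsMotivic H (gFil H (C := C)) := by
  intro hK X i n Γ hΓ hk x hx
  exact gM_shift (by
    have e : (X.dim : ℤ) + i - i = X.dim := by ring
    rw [e]; exact hΓ) (Or.inr ⟨hK, hk⟩) hx

lemma gFil_upTo {c d : ℕ} (hc : ∀ X : 𝒱.Obj, ∃ Z, Dominates C c X Z ∧ HasOwn H d Z) :
    IsBBUpTo H (c + d) (gFil H (C := C)) where
  zero X i x := gM_zero
  one X i x := gM_one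
  top X i x hx := by
    have h1 : x ∈ gM H X i (i + (c + d) + 1) := hx
    rw [gM_top hc] at h1
    exact (Submodule.mem_bot _).1 h1
  multiplicative := gFil_mult
  motivic := gFil_motivic
  strong := gFil_stable

/-- A Bloch-Beilinson filtration is automatically compatible with all correspondences. -/
lemma isStable_of {F : Filtration C} (hz : ∀ (X : 𝒱.Obj) (i : ℕ) (x : C.A X),
    F.Mem i 0 x ↔ C.Deg i x) (h1 : ∀ (X : 𝒱.Obj) (i : ℕ) (x : C.A X),
    F.Mem i 1 x ↔ C.Deg i x ∧ H.cl x = 0) (hm : IsMultiplicative F) (hmot : IsMotivic H F) :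
    IsStable H F := by
  have act_mem : ∀ (Z X : 𝒱.Obj) (j i n m : ℕ) (Γ : C.A (Z.prod X)),
      C.Deg (Z.dim + i - j) Γ → (∀ e : ℕ, (e : ℤ) = Z.dim + i - j → F.Mem e m Γ) →
      ∀ z, F.Mem j n z → F.Mem i (m + n) (C.act Γ z) := by
    intro Z X j i n m Γ hΓ hF z hz'
    by_cases hneg : (Z.dim : ℤ) + i - j < 0
    · have h0 : Γ = 0 := by
        have h2 : Γ ∈ C.gr (Z.prod X) ((Z.dim : ℤ) + i - j) := hΓ
        rw [C.gr_neg _ _ hneg] at h2
        exact (Submodule.mem_bot _).1 h2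
      rw [h0, C.act_zero]
      exact Submodule.zero_mem _
    · obtain ⟨e, he⟩ := Int.eq_ofNat_of_zero_le (not_lt.1 hneg)
      have h2 : F.Mem (e + j) (m + n) (C.mul Γ (C.up (fst Z X) z)) :=
        hm.mul (hF e (by rw [he])) (hm.pull (fst Z X) hz')
      refine hm.push (snd Z X) ?_ h2
      rw [dim_prod]
      have he' : (Z.dim : ℤ) + i - j = e := he
      omega
  have stable : ∀ (Z X : 𝒱.Obj) (j i n : ℕ) (Γ : C.A (Z.prod X)), C.Deg (Z.dim + i - j) Γ →
      ∀ z, F.Mem j n z → F.Mem i n (C.act Γ z) := by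
    intro Z X j i n Γ hΓ z hz'
    have h2 := act_mem Z X j i n 0 Γ hΓ (fun e he => (hz _ _ _).2 (by rw [he]; exact hΓ)) z hz'
    rwa [Nat.zero_add] at h2
  have shift1 : ∀ (Z X : 𝒱.Obj) (j i n : ℕ) (Γ : C.A (Z.prod X)), C.Deg (Z.dim + i - j) Γ →
      (∀ l, Kills H Γ l) → ∀ z, F.Mem j n z → F.Mem i (n + 1) (C.act Γ z) := by
    intro Z X j i n Γ hΓ hk z hz'
    have h2 := act_mem Z X j i n 1 Γ hΓ (fun e he => (h1 _ _ _).2
      ⟨by rw [he]; exact hΓ, cl_eq_zero_of_kills hk⟩) z hz'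
    rwa [Nat.add_comm] at h2
  refine ⟨stable, ?_⟩
  intro Z X j i n Γ hΓ hk z hz'
  rcases hk with hk | ⟨hK, hk⟩
  · exact shift1 Z X j i n Γ hΓ hk z hz'
  · obtain ⟨π, hπd, hπ⟩ := exists_proj hK Z (2 * (j : ℤ) - n)
    have e : (Z.dim : ℤ) + j - j = Z.dim := by ring
    have h2 : F.Mem j (n + 1) (C.act (dg C Z - π) z) :=
      hmot hK Z j n _ (Submodule.sub_mem _ (dg_mem C Z) hπd) (sub_proj_kills hπ) z hz'
    have h3 := stable Z X j i (n + 1) Γ hΓ _ h2
    have h4 : F.Mem i (n + 1) (C.act (C.comp π Γ) z) := by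
      refine shift1 Z X j i n _ (comp_deg (i := (j : ℤ)) (by rw [e]; exact hπd) hΓ)
        (fun l a ha => ?_) z hz'
      rw [GL.actH_comp, hπ l a ha]
      split_ifs with hl
      · subst hl
        exact hk a ha
      · exact GL.actH_zero Γ
    have h5 : C.act Γ z = C.act Γ (C.act (dg C Z - π) z) + C.act (C.comp π Γ) z := by
      rw [C.act_comp, ← act_map_add, C.act_sub, act_dg, sub_add_cancel]
    rw [h5]
    exact Submodule.add_mem _ h3 h4

lemma IsStable.own {F : Filtration C} (hz : ∀ (X : 𝒱.Obj) (i : ℕ) (x : C.A X),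
    F.Mem i 0 x ↔ C.Deg i x) (h1 : ∀ (X : 𝒱.Obj) (i : ℕ) (x : C.A X),
    F.Mem i 1 x ↔ C.Deg i x ∧ H.cl x = 0) (hs : IsStable H F) (Z : 𝒱.Obj) :
    IsOwn H Z (F.F Z) where
  anti := F.anti Z
  zero := hz Z
  one := h1 Z
  stable := hs.stable Z Z
  shift := hs.shift Z Z

theorem own_iff_chains (Z : 𝒱.Obj) : HasOwn H 0 Z ↔ OwnChainsVanish H Z := by
  constructor
  · rintro ⟨G, hG, ht⟩ j z hz
    have h2 : z ∈ cM H Z j (j + 1) := Submodule.subset_span hz
    have h3 := cM_le hG _ _ h2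
    have h4 := ht j
    rw [Nat.add_zero] at h4
    rw [h4] at h3
    exact (Submodule.mem_bot _).1 h3
  · intro h
    refine ⟨cM H Z, isOwn_cM Z, fun j => ?_⟩
    rw [Nat.add_zero, eq_bot_iff]
    refine Submodule.span_le.2 fun z hz => ?_
    exact (Submodule.mem_bot _).2 (h j z hz)

theorem lefschetz (hL : LefschetzFactors H) (hK : KunnethConjecture H) {d : ℕ} {F : Filtration C}
    (h : IsBBUpTo H d F) : IsBBUpTo H 0 F where
  zero := h.zero
  one := h.one
  multiplicative := h.multiplicative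
  motivic := h.motivic
  strong := h.strong
  top := by
    intro X j x hx
    have anti : ∀ μ, F.F X j μ ≤ F.F X j 0 := by
      intro μ
      induction μ with
      | zero => exact le_rfl
      | succ μ ih => exact (F.anti X j μ).trans ih
    have key : ∀ ν, j < ν → F.F X j ν ≤ F.F X j (ν + 1) := by
      intro ν hν z hz
      have hzj : C.Deg j z := (h.zero X j z).1 (anti ν hz)
      have hdg : C.Deg (X.dim + (j : ℤ) - j) (dg C X) := by
        have e : (X.dim : ℤ) + j - j = X.dim := by ring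
        rw [e]; exact dg_mem C X
      by_cases hm : 2 * j < ν
      · have hk : Kills H (dg C X) (2 * j - ν) := by
          intro a ha
          have h0 : H.gr X (2 * (j : ℤ) - ν) = ⊥ := H.gr_neg X _ (by omega)
          have : a = 0 := by
            have : a ∈ H.gr X (2 * (j : ℤ) - ν) := ha
            rw [h0] at this
            exact (Submodule.mem_bot _).1 this
          rw [this, GL.actH_zero]
        have := h.strong.shift X X j j ν (dg C X) hdg (Or.inr ⟨hK, hk⟩) z hz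
        rwa [act_dg] at this
      · obtain ⟨m, hm'⟩ : ∃ m : ℕ, m = 2 * j - ν := ⟨_, rfl⟩
        obtain ⟨Y, a, b, hY, ha, hb, hab⟩ := hL X m
        have hmz : (m : ℤ) = 2 * (j : ℤ) - ν := by omega
        have ha' : C.Deg (X.dim + (j : ℤ) - j) a := by
          have e : (X.dim : ℤ) + j - j = X.dim := by ring
          rw [e]; exact ha
        have hb' : C.Deg (Y.dim + (j : ℤ) - j) b := by
          have e : (Y.dim : ℤ) + j - j = Y.dim := by ring
          rw [e]; exact hb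
        have hk : Kills H (dg C X - C.comp a b) (2 * j - ν) := by
          intro α hα
          rw [← hmz] at hα
          rw [map_sub, H.act_sub, GL.actH_comp, hab α hα, TH133.actH_dg, sub_self]
        have h1 := h.strong.shift X X j j ν (dg C X - C.comp a b)
          (Submodule.sub_mem _ hdg (comp_deg ha' hb')) (Or.inr ⟨hK, hk⟩) z hz
        have h2 : C.act a z = 0 := by
          have h3 : C.Deg j (C.act a z) := act_deg ha' hzj
          exact hC.gr_top Y j _ h3 (by omega)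
        rw [C.act_sub, act_dg, C.act_comp, h2, C.act_map_zero, sub_zero] at h1
        exact h1
    have all : ∀ e : ℕ, F.F X j (j + 1) ≤ F.F X j (j + 1 + e) := by
      intro e
      induction e with
      | zero => exact le_rfl
      | succ e ih => exact ih.trans (key (j + 1 + e) (by omega))
    have h5 := all d hx
    have e : j + 1 + d = j + d + 1 := by ring
    rw [e] at h5
    exact h.top X j x h5

lemma IsBBUpTo.isBB {F : Filtration C} (h : IsBBUpTo H 0 F) : IsBB H F where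
  bounded := ⟨h.zero, h.one, h.top⟩
  multiplicative := h.multiplicative
  motivic := h.motivic

lemma HasOwn.mono {d : ℕ} (h : HasOwn H 0 Z) : HasOwn H d Z := by
  obtain ⟨G, hG, ht⟩ := h
  refine ⟨G, hG, fun j => ?_⟩
  have h3 : ∀ e : ℕ, G j (j + 0 + 1 + e) ≤ G j (j + 0 + 1) := by
    intro e
    induction e with
    | zero => exact le_rfl
    | succ e ih => exact (hG.anti j _).trans ih
  have h4 := h3 d
  rw [ht j] at h4
  rw [eq_bot_iff]
  have e : j + 0 + 1 + d = j + d + 1 := by ring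
  rwa [e] at h4

theorem isBB_own {F : Filtration C} (h : IsBB H F) (Z : 𝒱.Obj) : HasOwn H 0 Z := by
  have hs := isStable_of h.bounded.zero h.bounded.one h.multiplicative h.motivic
  refine ⟨F.F Z, IsStable.own h.bounded.zero h.bounded.one hs Z, fun j => ?_⟩
  rw [eq_bot_iff, Nat.add_zero]
  exact fun z hz => (Submodule.mem_bot _).2 (h.bounded.top Z j z hz)

theorem gFil_le {F : Filtration C} (hz : ∀ (X : 𝒱.Obj) (i : ℕ) (x : C.A X),
    F.Mem i 0 x ↔ C.Deg i x) (h1 : ∀ (X : 𝒱.Obj) (i : ℕ) (x : C.A X),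
    F.Mem i 1 x ↔ C.Deg i x ∧ H.cl x = 0) (hs : IsStable H F) (X : 𝒱.Obj) (j ν : ℕ) :
    (gFil H).F X j ν ≤ F.F X j ν := by
  rintro x ⟨Z, f, g, h, hx⟩
  have h2 := cM_le (IsStable.own hz h1 hs Z) j ν hx
  have h3 := hs.stable Z X j j ν g (h.deg_g j) _ h2
  rwa [h.eq] at h3

theorem main :
    (∀ 𝓕 : 𝒱.Obj → Prop, (∀ X, Hull C 0 𝓕 X) →
      [∃ F : Filtration C, IsBB H F, ∀ Z, 𝓕 Z → HasOwn H 0 Z,
        ∀ Z, 𝓕 Z → OwnChainsVanish H Z].TFAE) ∧
    (∀ (c d : ℕ) (𝓕 : 𝒱.Obj → Prop), (∀ X, Hull C c 𝓕 X) → (∀ Z, 𝓕 Z → HasOwn H d Z) →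
      ∃ F : Filtration C, IsBBUpTo H (c + d) F) ∧
    (LefschetzFactors H → KunnethConjecture H → ∀ (c d : ℕ) (𝓕 : 𝒱.Obj → Prop),
      (∀ X, Hull C c 𝓕 X) →
      ((∃ F : Filtration C, IsBB H F) ↔ ∀ Z, 𝓕 Z → HasOwn H d Z)) ∧
    ((∃ F : Filtration C, IsBB H F) → ∃ F₀ : Filtration C, IsBB H F₀ ∧ IsStable H F₀ ∧
      ∀ F : Filtration C, IsBB H F → ∀ X j ν, F₀.F X j ν ≤ F.F X j ν) := by
  have h2 : ∀ (c d : ℕ) (𝓕 : 𝒱.Obj → Prop), (∀ X, Hull C c 𝓕 X) →
      (∀ Z, 𝓕 Z → HasOwn H d Z) → IsBBUpTo H (c + d) (gFil H (C := C)) := by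
    intro c d 𝓕 hd h
    refine gFil_upTo fun X => ?_
    obtain ⟨Z, hZ, hdom⟩ := hd X
    exact ⟨Z, hdom, h Z hZ⟩
  refine ⟨fun 𝓕 hd => ?_, fun c d 𝓕 hd h => ⟨_, h2 c d 𝓕 hd h⟩, fun hL hK c d 𝓕 hd => ?_, ?_⟩
  · tfae_have 1 → 2 := fun ⟨F, hF⟩ Z _ => isBB_own hF Z
    tfae_have 2 → 1 := fun h => ⟨_, (h2 0 0 𝓕 hd h).isBB⟩
    tfae_have 2 ↔ 3 := forall₂_congr fun Z _ => own_iff_chains Z
    tfae_finish
  · exact ⟨fun ⟨F, hF⟩ Z _ => (isBB_own hF Z).mono,
      fun h => ⟨_, (lefschetz hL hK (h2 c d 𝓕 hd h)).isBB⟩⟩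
  · rintro ⟨F, hF⟩
    refine ⟨gFil H, (h2 0 0 (fun _ => True) hull_univ fun Z _ => isBB_own hF Z).isBB,
      gFil_stable, fun F' hF' X j ν => ?_⟩
    exact gFil_le hF'.bounded.zero hF'.bounded.one
      (isStable_of hF'.bounded.zero hF'.bounded.one hF'.multiplicative hF'.motivic) X j ν

end Pool.Agent.Q28.GM
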