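import Pool.Agent.Q28.GM.Core

/-!
# The glued filtration is multiplicative
-/

open CategoryTheory AlgebraicGeometry

universe u v w

namespace Pool.Agent.Q28.GM

open Pool.Agent.H914 Pool.Agent.H914.VarClass Pool.Agent.H914.VarClass.Obj Pool.Agent.W492.BB
  Pool.Agent.W550.Corr Pool.Agent.TH133 Pool.Agent.Q28.GL

set_option linter.unusedSectionVars false

variable {k : Type u} [Field k] {𝒱 : VarClass k}

variable {C : TheoryData.{u, v, 0} 𝒱 ℚ} {K : Type w} [Field K] {H : WeilTheoryData.{u, v, w} C K}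
  [hC : IsChowProj C] [hH : IsWeilProj H] {X Y Z W Z₁ Z₂ : 𝒱.Obj}

include hC hH

lemma real_move {e : ℤ} {φ : C.A X → C.A Y} {ψ : H.A X → H.A Y} (h : Realised H X Y e φ ψ)
    {j i ν : ℕ} (he : (i : ℤ) = j + e) {x : C.A X} (hx : x ∈ gM H X j ν) :
    φ x ∈ gM H Y i ν := by
  obtain ⟨Γ, hΓ, h1, -⟩ := h
  rw [← h1]
  exact gM_stable (by
    have e1 : (X.dim : ℤ) + i - j = X.dim + e := by rw [he]; ring
    rw [e1]; exact hΓ) hx

lemma real_shift {e : ℤ} {φ : C.A X → C.A Y} {ψ : H.A X → H.A Y} (h : Realised H X Y e φ ψ)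
    {j i ν : ℕ} (he : (i : ℤ) = j + e)
    (hk : (∀ a, ψ a = 0) ∨ (KunnethConjecture H ∧ ∀ a, H.Deg (2 * j - ν) a → ψ a = 0))
    {x : C.A X} (hx : x ∈ gM H X j ν) : φ x ∈ gM H Y i (ν + 1) := by
  obtain ⟨Γ, hΓ, h1, h2⟩ := h
  rw [← h1]
  refine gM_shift (by
    have e1 : (X.dim : ℤ) + i - j = X.dim + e := by rw [he]; ring
    rw [e1]; exact hΓ) ?_ hx
  rcases hk with hk | ⟨hK, hk⟩
  · exact Or.inl fun l a _ => by rw [h2, hk]
  · exact Or.inr ⟨hK, fun a ha => by rw [h2, hk a ha]⟩

/-- The operator `y ↦ x × y`. -/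
lemma real_ext {i : ℤ} {x : C.A X} (hx : x ∈ C.gr X i) (Y : 𝒱.Obj) :
    Realised H Y (X.prod Y) i (fun y => C.ext x y) (fun b => H.ext (H.cl x) b) := by
  refine ((Realised.pull (H := H) (snd X Y)).comp (Realised.mul (C.pull_mem (fst X Y) hx))).congr
    (by ring) (fun y => rfl) (fun b => ?_)
  rw [H.cl_pull]; rfl

lemma ext_add_right (a : C.A X) (b b' : C.A Y) : C.ext a (b + b') = C.ext a b + C.ext a b' := by
  rw [TheoryData.ext, map_add, mul_add]; rfl

lemma cl_eq_zero_of_kills {Γ : C.A (X.prod Y)} (h : ∀ l, Kills H Γ l) : H.cl Γ = 0 :=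
  eq_zero_of_act H _ (act_eq_zero_of_kills H Γ h)

lemma extL_zero (Z : 𝒱.Obj) (c : H.A (X.prod Z)) : H.extL (0 : H.A (X.prod Y)) Z c = 0 := by
  rw [TheoryData.extL, map_zero, zero_mul, map_zero]

lemma extR_map_zero (Γ : H.A (X.prod Y)) (Z : 𝒱.Obj) : H.extR Γ Z 0 = 0 :=
  map_zero (H.extRL Γ Z)

lemma extR_map_add (Γ : H.A (X.prod Y)) (Z : 𝒱.Obj) (a b : H.A (Z.prod X)) :
    H.extR Γ Z (a + b) = H.extR Γ Z a + H.extR Γ Z b := map_add (H.extRL Γ Z) a b

lemma extR_map_smul (Γ : H.A (X.prod Y)) (Z : 𝒱.Obj) (q : K) (a : H.A (Z.prod X)) :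
    H.extR Γ Z (q • a) = q • H.extR Γ Z a := map_smul (H.extRL Γ Z) q a

lemma extL_map_zero (Γ : H.A (X.prod Y)) (Z : 𝒱.Obj) : H.extL Γ Z 0 = 0 :=
  map_zero (H.extLL Γ Z)

lemma extL_map_add (Γ : H.A (X.prod Y)) (Z : 𝒱.Obj) (a b : H.A (X.prod Z)) :
    H.extL Γ Z (a + b) = H.extL Γ Z a + H.extL Γ Z b := map_add (H.extLL Γ Z) a b

lemma extL_map_smul (Γ : H.A (X.prod Y)) (Z : 𝒱.Obj) (q : K) (a : H.A (X.prod Z)) :
    H.extL Γ Z (q • a) = q • H.extL Γ Z a := map_smul (H.extLL Γ Z) q a

/-- The Künneth projectors, all integral degrees. -/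
lemma exists_proj (hK : KunnethConjecture H) (Y : 𝒱.Obj) (M : ℤ) :
    ∃ π : C.A (Y.prod Y), C.Deg Y.dim π ∧ ∀ (l : ℤ) (a : H.A Y), H.Deg l a →
      H.act (H.cl π) a = if l = M then a else 0 := by
  by_cases hM : 0 ≤ M
  · obtain ⟨m, rfl⟩ := Int.eq_ofNat_of_zero_le hM
    exact hK Y m
  · refine ⟨0, Submodule.zero_mem _, fun l a ha => ?_⟩
    rw [TH133.actH_zero]
    split_ifs with hl
    · subst hl
      have h0 : H.gr Y l = ⊥ := H.gr_neg Y l (by omega)
      have h1 : a ∈ H.gr Y l := ha
      rw [h0] at h1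
      exact ((Submodule.mem_bot _).1 h1).symm
    · rfl

lemma sub_proj_kills {M : ℤ} {π : C.A (Y.prod Y)} (hπ : ∀ (l : ℤ) (a : H.A Y), H.Deg l a →
    H.act (H.cl π) a = if l = M then a else 0) : Kills H (dg C Y - π) M := by
  intro a ha
  rw [map_sub, H.act_sub, TH133.actH_dg, hπ M a ha, if_pos rfl, sub_self]

/-- **The glued filtration is compatible with external products.** -/
theorem ext_mem_gM (m : ℕ) : ∀ (n : ℕ) (X Y : 𝒱.Obj) (i j : ℕ) (x : C.A X) (y : C.A Y),
    x ∈ gM H X i m → y ∈ gM H Y j n → C.ext x y ∈ gM H (X.prod Y) (i + j) (m + n) := by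
  induction m with
  | zero =>
    intro n X Y i j x y hx hy
    rw [Nat.zero_add]
    exact real_move (real_ext (H := H) (gM_zero.1 hx) Y) (by push_cast; ring) hy
  | succ m ih =>
    intro n X Y i j x y hx hy
    match m, ih with
    | 0, _ =>
      have hx' := gM_one.1 hx
      have e : 0 + 1 + n = n + 1 := by ring
      rw [e]
      refine real_shift (real_ext (H := H) hx'.1 Y) (by push_cast; ring) (Or.inl fun b => ?_) hy
      rw [hx'.2, TheoryData.ext_zero_left]
    | m + 1, ih =>
      have hgen := gM_gen hx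
      clear hx
      induction hgen using Submodule.span_induction with
      | mem x hx =>
        obtain ⟨Z, l, z, Γ, hz, hΓ, hk, rfl⟩ := hx
        have hΓ' : Γ ∈ C.gr (Z.prod X) (Z.dim + ((i : ℤ) - l)) := by
          have e : (Z.dim : ℤ) + (i - l) = Z.dim + i - l := by ring
          rw [e]; exact hΓ
        have hL := Realised.extL (H := H) hΓ' Y
        have hidx : (((i + j : ℕ) : ℤ)) = ((l + j : ℕ) : ℤ) + ((i : ℤ) - l) := by push_cast; ring
        rcases hk with hk | ⟨hK, hk⟩
        · have h1 := ih n Z Y l j z y hz hy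
          have h2 := real_shift hL hidx (Or.inl fun c => by
            rw [cl_eq_zero_of_kills hk, extL_zero]) h1
          rw [C.extL_ext] at h2
          have e : m + 1 + n + 1 = m + 1 + 1 + n := by ring
          rwa [e] at h2
        · obtain ⟨π, hπd, hπ⟩ := exists_proj hK Y (2 * (j : ℤ) - n)
          have hπd' : π ∈ C.gr (Y.prod Y) (Y.dim + 0) := by rw [add_zero]; exact hπd
          have hy1 : y - C.act π y ∈ gM H Y j (n + 1) := by
            have h3 := gM_shift (H := H) (Γ := dg C Y - π) (i := j) (by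
              have e : (Y.dim : ℤ) + j - j = Y.dim := by ring
              rw [e]
              exact Submodule.sub_mem _ (dg_mem C Y) hπd) (Or.inr ⟨hK, sub_proj_kills hπ⟩) hy
            rwa [C.act_sub, act_dg] at h3
          have hsplit : C.ext (C.act Γ z) y =
              C.ext (C.act Γ z) (C.act π y) + C.ext (C.act Γ z) (y - C.act π y) := by
            rw [← ext_add_right (H := H), add_sub_cancel]
          rw [hsplit]
          apply Submodule.add_mem
          · have h1 := ih n Z Y l j z y hz hy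
            have hR := Realised.extR (H := H) hπd' X
            have h2 := real_shift (hL.comp hR) (by rw [hidx]; ring) (Or.inr ⟨hK, fun c hc => by
              have h3 := H.kunneth Z Y _ hc
              clear hc
              induction h3 using Submodule.span_induction with
              | mem c hc =>
                obtain ⟨p, a, b, ha, hb, rfl⟩ := hc
                change H.extR (H.cl π) X (H.extL (H.cl Γ) Y (H.ext a b)) = 0
                rw [H.extL_ext, H.extR_ext _ (fun c => by
                  rw [← H.cl_pull]; exact H.cl_central _ _)]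
                by_cases hp : p = 2 * (l : ℤ) - ((m + 1 : ℕ) : ℤ)
                · rw [hk a (by rw [← hp]; exact ha), TheoryData.ext_zero_left]
                · rw [hπ _ b hb, if_neg (by push_cast at hp ⊢; omega),
                    TheoryData.ext_zero_right]
              | zero => rw [extL_map_zero, extR_map_zero]
              | add a b _ _ ha hb => rw [extL_map_add, extR_map_add, ha, hb, add_zero]
              | smul q a _ ha => rw [extL_map_smul, extR_map_smul, ha, smul_zero]⟩) h1
            rw [C.extL_ext, C.extR_ext _ (fun c => ch_comm C _ _)] at h2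
            have e : m + 1 + n + 1 = m + 1 + 1 + n := by ring
            rwa [e] at h2
          · have h1 := ih (n + 1) Z Y l j z _ hz hy1
            have h2 := real_move hL hidx h1
            rw [C.extL_ext] at h2
            have e : m + 1 + (n + 1) = m + 1 + 1 + n := by ring
            rwa [e] at h2
      | zero =>
        rw [TheoryData.ext_zero_left]
        exact Submodule.zero_mem _
      | add a b _ _ ha hb =>
        have : C.ext (a + b) y = C.ext a y + C.ext b y := by
          rw [TheoryData.ext, map_add, add_mul]; rfl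
        rw [this]
        exact Submodule.add_mem _ ha hb
      | smul q a _ ha =>
        have : C.ext (q • a) y = q • C.ext a y := by
          rw [TheoryData.ext, map_smul, smul_mul_assoc]; rfl
        rw [this]
        exact Submodule.smul_mem _ q ha

end Pool.Agent.Q28.GM
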